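import Mathlib

/-!
# The average `N`-adic complexity of finite sequences is `n / 2 + O(1)`

Identify the words of length `n` with the residues `A < q = N ^ n`.  A rational number `f / g` in
lowest terms with `g` prime to `N` continues the word `A` if and only if `f ≡ g A` modulo `q`.

*Lower bound.* For a given `1 ≤ g ≤ R` the number of pairs `(f, A)` with `|f| ≤ R` and `f ≡ g A` is at
most `(2 R / d + 1) d ≤ 3 R` with `d = gcd (g, q)`; so at most `3 R ^ 2` residues `A` have a
representation of height at most `R`, and the layer cake formula gives the bound.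

*Upper bound.* Let `m` be the minimum of the sup norm on the lattice of the `(f, g)` with `f ≡ g A`.
By Dirichlet `m ^ 2 ≤ q`.  The shortest vector `(f1, g1)` is completed to a reduced basis by
`(f2, g2)` of norm at most `2 q / m`, and `gcd (g1, g2) = 1`.  So some `g2 + s g1`, `0 ≤ s ≤ N`, is
prime to `N`, which gives a representation of height at most `(N + 2) q / m`.  The same count bounds
the number of the `A` with a small `m`.
-/

set_option autoImplicit false

namespace Pool.Agent.Results.MP_68df70_lc.AverageComplexity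

open Finset

lemma card_sol (q g : ℕ) (hq : 0 < q) (f : ℤ) :
    ((range q).filter fun A : ℕ => (q : ℤ) ∣ g * (A : ℤ) - f).card ≤ Nat.gcd g q := by
  set d := Nat.gcd g q with hd
  have hd0 : 0 < d := Nat.gcd_pos_of_pos_right _ hq
  obtain ⟨g', hg'⟩ : d ∣ g := Nat.gcd_dvd_left _ _
  obtain ⟨q', hq'⟩ : d ∣ q := Nat.gcd_dvd_right _ _
  have hcop : Nat.Coprime g' q' := by
    have h1 : Nat.gcd (d * g') (d * q') = d * Nat.gcd g' q' := Nat.gcd_mul_left d g' q'
    rw [← hg', ← hq', ← hd] at h1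
    exact Nat.eq_of_mul_eq_mul_left hd0 (by rw [mul_one]; exact h1.symm)
  have hq'0 : 0 < q' := by
    rcases Nat.eq_zero_or_pos q' with h | h
    · subst h; omega
    · exact h
  calc _ ≤ (range d).card := Finset.card_le_card_of_injOn (fun A => A / q') ?_ ?_
    _ = d := card_range d
  · intro A hA
    simp only [coe_filter, mem_range, Set.mem_ofPred_eq, coe_range, Set.mem_Iio] at hA ⊢
    rw [Nat.div_lt_iff_lt_mul hq'0, ← hq']
    exact hA.1
  · intro A hA B hB hAB
    simp only [coe_filter, mem_range, Set.mem_ofPred_eq] at hA hB hAB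
    have h1 : (q : ℤ) ∣ g * ((A : ℤ) - B) := by
      have := dvd_sub hA.2 hB.2
      have e : (g : ℤ) * A - f - (g * B - f) = g * ((A : ℤ) - B) := by ring
      rwa [e] at this
    have h2 : (q' : ℤ) ∣ g' * ((A : ℤ) - B) := by
      have h3 : ((d : ℤ)) * q' ∣ d * (g' * ((A : ℤ) - B)) := by
        have e1 : (q : ℤ) = d * q' := by exact_mod_cast hq'
        have e2 : (g : ℤ) = d * g' := by exact_mod_cast hg'
        rw [e1, e2, mul_assoc] at h1
        exact h1
      exact (mul_dvd_mul_iff_left (by exact_mod_cast hd0.ne')).1 h3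
    have h4 : (q' : ℤ) ∣ (A : ℤ) - B := by
      have hc : IsCoprime (q' : ℤ) (g' : ℤ) := (Nat.isCoprime_iff_coprime.2 hcop).symm
      exact hc.dvd_of_dvd_mul_left h2
    have h5 : A ≡ B [MOD q'] := by
      have : (B : ℤ) ≡ A [ZMOD q'] := (Int.modEq_iff_dvd).2 h4
      exact (Int.natCast_modEq_iff.1 this).symm
    rw [← Nat.div_add_mod A q', ← Nat.div_add_mod B q', hAB, h5]

lemma card_mult (d R : ℕ) (hd : 0 < d) :
    ((Icc (-(R : ℤ)) R).filter fun f : ℤ => (d : ℤ) ∣ f).card ≤ 2 * (R / d) + 1 := by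
  have hd' : (0 : ℤ) < d := by exact_mod_cast hd
  calc _ ≤ (Icc (-((R / d : ℕ) : ℤ)) ((R / d : ℕ) : ℤ)).card :=
        Finset.card_le_card_of_injOn (fun f => f / d) ?_ ?_
    _ = _ := by rw [Int.card_Icc]; omega
  · intro f hf
    simp only [coe_filter, mem_Icc, Set.mem_ofPred_eq, coe_Icc, Set.mem_Icc] at hf ⊢
    obtain ⟨⟨h1, h2⟩, k, rfl⟩ := hf
    rw [Int.mul_ediv_cancel_left _ hd'.ne', Int.natCast_div]
    constructor
    · rw [neg_le, Int.le_ediv_iff_mul_le hd']
      nlinarith
    · rw [Int.le_ediv_iff_mul_le hd']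
      nlinarith
  · intro a ha b hb hab
    simp only [coe_filter, mem_Icc, Set.mem_ofPred_eq] at ha hb hab
    obtain ⟨_, k, rfl⟩ := ha
    obtain ⟨_, l, rfl⟩ := hb
    rw [Int.mul_ediv_cancel_left _ hd'.ne', Int.mul_ediv_cancel_left _ hd'.ne'] at hab
    rw [hab]

/-- the `A < q` such that `f ≡ g A` modulo `q` for some `1 ≤ g ≤ R`, `|f| ≤ R` -/
noncomputable def Bad (q R : ℕ) : Finset ℕ :=
  (range q).filter fun A => ∃ g ∈ Icc 1 R, ∃ f ∈ Icc (-(R : ℤ)) R, (q : ℤ) ∣ (g : ℤ) * (A : ℤ) - f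

lemma card_Bad (q R : ℕ) (hq : 0 < q) : (Bad q R).card ≤ 3 * R ^ 2 := by
  have hsub : Bad q R ⊆ (Icc 1 R).biUnion fun g =>
      ((Icc (-(R : ℤ)) R).filter fun f : ℤ => ((Nat.gcd g q : ℕ) : ℤ) ∣ f).biUnion fun f =>
        (range q).filter fun A : ℕ => (q : ℤ) ∣ g * (A : ℤ) - f := by
    intro A hA
    simp only [Bad, mem_filter] at hA
    obtain ⟨hA, g, hg, f, hf, h⟩ := hA
    simp only [mem_biUnion, mem_filter]
    refine ⟨g, hg, f, ⟨hf, ?_⟩, hA, h⟩
    have h1 : ((Nat.gcd g q : ℕ) : ℤ) ∣ (q : ℤ) := by exact_mod_cast Nat.gcd_dvd_right g q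
    have h2 : ((Nat.gcd g q : ℕ) : ℤ) ∣ (g : ℤ) := by exact_mod_cast Nat.gcd_dvd_left g q
    have h3 := h1.trans h
    have h4 : ((Nat.gcd g q : ℕ) : ℤ) ∣ (g : ℤ) * A := h2.mul_right _
    have := dvd_sub h4 h3
    simpa using this
  refine (card_le_card hsub).trans ?_
  refine card_biUnion_le.trans ?_
  calc ∑ g ∈ Icc 1 R, _ ≤ ∑ g ∈ Icc 1 R, 3 * R := by
        refine sum_le_sum fun g hg => ?_
        refine card_biUnion_le.trans ?_
        have hd : 0 < Nat.gcd g q := Nat.gcd_pos_of_pos_right _ hq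
        calc _ ≤ ∑ f ∈ (Icc (-(R : ℤ)) R).filter (fun f : ℤ => ((Nat.gcd g q : ℕ) : ℤ) ∣ f),
              Nat.gcd g q := sum_le_sum fun f _ => card_sol q g hq f
          _ = ((Icc (-(R : ℤ)) R).filter fun f : ℤ => ((Nat.gcd g q : ℕ) : ℤ) ∣ f).card *
              Nat.gcd g q := by rw [sum_const, smul_eq_mul]
          _ ≤ (2 * (R / Nat.gcd g q) + 1) * Nat.gcd g q :=
              Nat.mul_le_mul_right _ (card_mult _ _ hd)
          _ ≤ 3 * R := by
              have h1 : R / Nat.gcd g q * Nat.gcd g q ≤ R := Nat.div_mul_le_self _ _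
              have h2 : Nat.gcd g q ≤ g := Nat.gcd_le_left _ (by simp at hg; omega)
              have h3 : g ≤ R := (mem_Icc.1 hg).2
              nlinarith
    _ = 3 * R ^ 2 := by rw [sum_const, Nat.card_Icc, smul_eq_mul]; simp; ring

/-- layer cake -/
lemma sum_le_of_tail (q : ℕ) (X : ℕ → ℝ)
    (h : ∀ k : ℕ, 1 ≤ k → (((range q).filter fun A => (k : ℝ) < X A).card : ℝ) ≤ 3 * q / 4 ^ k) :
    ∑ A ∈ range q, X A ≤ 2 * q := by
  obtain ⟨K, hK⟩ : ∃ K : ℕ, ∀ A ∈ range q, X A ≤ K := by
    obtain ⟨K, hK⟩ := exists_nat_ge (∑ A ∈ range q, |X A|)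
    exact ⟨K, fun A hA => (le_abs_self _).trans
      ((single_le_sum (f := fun A => |X A|) (fun _ _ => abs_nonneg _) hA).trans hK)⟩
  have h1 : ∀ A ∈ range q, X A ≤ ∑ k ∈ range K, if (k : ℝ) < X A then (1 : ℝ) else 0 := by
    intro A hA
    rcases le_or_gt (X A) 0 with h0 | h0
    · exact h0.trans (sum_nonneg fun k _ => by split_ifs <;> norm_num)
    · rw [← sum_filter, sum_const, nsmul_eq_mul, mul_one]
      have h2 : (range K).filter (fun k : ℕ => (k : ℝ) < X A) = range ⌈X A⌉₊ := by
        ext k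
        simp only [mem_filter, mem_range]
        constructor
        · rintro ⟨_, h⟩; exact Nat.lt_ceil.2 h
        · intro h
          have h' := Nat.lt_ceil.1 h
          exact ⟨by exact_mod_cast h'.trans_le (hK A hA), h'⟩
      rw [h2, card_range]
      exact Nat.le_ceil _
  calc ∑ A ∈ range q, X A ≤ ∑ A ∈ range q, ∑ k ∈ range K, (if (k : ℝ) < X A then (1 : ℝ) else 0) :=
        sum_le_sum h1
    _ = ∑ k ∈ range K, ∑ A ∈ range q, (if (k : ℝ) < X A then (1 : ℝ) else 0) := sum_comm
    _ = ∑ k ∈ range K, (((range q).filter fun A => (k : ℝ) < X A).card : ℝ) := by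
        refine sum_congr rfl fun k _ => ?_
        rw [← sum_filter, sum_const, nsmul_eq_mul, mul_one]
    _ ≤ ∑ k ∈ range K, ((q : ℝ) * ((if k = 0 then 1 else 0) + (if k = 0 then 0 else 3 / 4 ^ k))) := by
        refine sum_le_sum fun k _ => ?_
        rcases Nat.eq_zero_or_pos k with h0 | h0
        · subst h0
          simp only [if_true]
          have := card_filter_le (range q) (fun A => ((0 : ℕ) : ℝ) < X A)
          rw [card_range] at this
          have : (((range q).filter fun A => ((0 : ℕ) : ℝ) < X A).card : ℝ) ≤ q := by exact_mod_cast this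
          linarith
        · have := h k h0
          rw [if_neg h0.ne', if_neg h0.ne']
          have e : (q : ℝ) * (0 + 3 / 4 ^ k) = 3 * q / 4 ^ k := by ring
          rw [e]; exact this
    _ = q * ∑ k ∈ range K, (((if k = 0 then 1 else 0) + (if k = 0 then 0 else 3 / 4 ^ k)) : ℝ) := by
        rw [mul_sum]
    _ ≤ q * 2 := by
        refine mul_le_mul_of_nonneg_left ?_ (Nat.cast_nonneg _)
        have : ∀ K : ℕ, ∑ k ∈ range (K + 1),
            (((if k = 0 then 1 else 0) + (if k = 0 then 0 else 3 / 4 ^ k)) : ℝ) = 2 - 1 / 4 ^ K := by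
          intro K
          induction K with
          | zero => simp; norm_num
          | succ K ih =>
            rw [sum_range_succ, ih]
            simp only [Nat.add_eq_zero_iff, one_ne_zero, and_false, if_false]
            rw [pow_succ]
            field_simp
            ring
        rcases K with _ | K
        · simp
        · rw [this K]
          have : (0 : ℝ) < 1 / 4 ^ K := by positivity
          linarith
    _ = 2 * q := by ring


/-- some small shift of `a` along `b` is coprime to `N` -/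
lemma exists_shift (a b : ℤ) (hab : IsCoprime a b) (N : ℕ) (hN : 0 < N) :
    ∃ s : ℕ, s ≤ N ∧ IsCoprime (a + s * b) (N : ℤ) := by
  classical
  set s := ∏ p ∈ N.primeFactors.filter (fun p : ℕ => ¬ (p : ℤ) ∣ a), p with hs
  have hsN : s ∣ N := by
    refine (Finset.prod_dvd_prod_of_subset _ _ _ (filter_subset _ _)).trans
      (Nat.prod_primeFactors_dvd N)
  refine ⟨s, Nat.le_of_dvd hN hsN, ?_⟩
  rw [Int.isCoprime_iff_gcd_eq_one, Int.gcd, Int.natAbs_natCast]
  refine Nat.Coprime.symm ?_
  refine Nat.Coprime.symm (Nat.coprime_of_dvd ?_)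
  intro p hp h1 h2
  have h1' : (p : ℤ) ∣ a + s * b := Int.natCast_dvd.2 h1
  have hpN : p ∈ N.primeFactors := Nat.mem_primeFactors.2 ⟨hp, h2, hN.ne'⟩
  by_cases hpa : (p : ℤ) ∣ a
  · have h3 : (p : ℤ) ∣ s * b := (dvd_add_right hpa).1 h1'
    have hpp : Prime (p : ℤ) := Nat.prime_iff_prime_int.1 hp
    rcases hpp.dvd_or_dvd h3 with h4 | h4
    · have h5 : p ∣ s := by exact_mod_cast h4
      rw [hs, hp.prime.dvd_finsetProd_iff] at h5
      obtain ⟨r, hr, hpr⟩ := h5
      have hr' := mem_filter.1 hr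
      have := (Nat.prime_dvd_prime_iff_eq hp (Nat.prime_of_mem_primeFactors hr'.1)).1 hpr
      subst this
      exact hr'.2 hpa
    · exact hpp.not_isUnit (hab.isUnit_of_dvd' hpa h4)
  · have h3 : p ∣ s := by
      rw [hs]
      exact dvd_prod_of_mem (fun p => p) (mem_filter.2 ⟨hpN, hpa⟩)
    have h4 : (p : ℤ) ∣ s * b := (Int.natCast_dvd_natCast.2 h3).mul_right _
    exact hpa ((dvd_add_left h4).1 h1')

/-- geometry of numbers: a short vector and a short vector with second coordinate prime to `N` -/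
lemma lattice (N q A : ℕ) (hN : 0 < N) (hq : 0 < q) :
    ∃ m : ℕ, 0 < m ∧ (∃ f g : ℤ, (g ≠ 0 ∨ f ≠ 0) ∧ (q : ℤ) ∣ g * A - f ∧ |f| ≤ m ∧ |g| ≤ m) ∧
      ∃ f g : ℤ, (q : ℤ) ∣ g * A - f ∧ IsCoprime g (N : ℤ) ∧
        |f| * m ≤ (N + 2) * q ∧ |g| * m ≤ (N + 2) * q := by
  classical
  have hq' : (0 : ℤ) < q := by exact_mod_cast hq
  -- Dirichlet
  have hex : ∃ m : ℕ, ∃ g h : ℤ, (g ≠ 0 ∨ h ≠ 0) ∧ m = max (g * A + h * q).natAbs g.natAbs :=
    ⟨_, 1, 0, Or.inl one_ne_zero, rfl⟩
  set m := Nat.find hex with hm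
  obtain ⟨g1, h1, hne, hm1⟩ := Nat.find_spec hex
  have hmin : ∀ g h : ℤ, (g ≠ 0 ∨ h ≠ 0) → m ≤ max (g * A + h * q).natAbs g.natAbs :=
    fun g h hgh => Nat.find_min' hex ⟨g, h, hgh, rfl⟩
  have hm0 : 0 < m := by
    rcases Nat.eq_zero_or_pos m with h0 | h0
    · exfalso
      rw [← hm, h0] at hm1
      have h2 : (g1 * A + h1 * q).natAbs = 0 := by
        have := le_max_left (g1 * A + h1 * q).natAbs g1.natAbs
        omega
      have h3 : g1.natAbs = 0 := by
        have := le_max_right (g1 * A + h1 * q).natAbs g1.natAbs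
        omega
      have h3' : g1 = 0 := Int.natAbs_eq_zero.1 h3
      have h2' := Int.natAbs_eq_zero.1 h2
      rw [h3', zero_mul, zero_add] at h2'
      have : h1 = 0 := by
        rcases mul_eq_zero.1 h2' with h | h
        · exact h
        · omega
      rcases hne with h | h
      · exact h h3'
      · exact h this
    · exact h0
  have hmsq : (m : ℤ) * m ≤ q := by
    have hs0 : 0 < Nat.sqrt q := Nat.sqrt_pos.2 hq
    obtain ⟨k, hk0, hk1, hk2⟩ := Real.exists_nat_abs_mul_sub_round_le ((A : ℝ) / q) hs0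
    set r := round ((k : ℝ) * ((A : ℝ) / q)) with hr
    have hle := hmin (k : ℤ) (-r) (Or.inl (by omega))
    have hq0 : (0 : ℝ) < q := by exact_mod_cast hq
    have hs1 : (q : ℝ) < ((Nat.sqrt q : ℝ) + 1) * ((Nat.sqrt q : ℝ) + 1) := by
      exact_mod_cast Nat.lt_succ_sqrt q
    have hs2 : ((Nat.sqrt q : ℝ)) * ((Nat.sqrt q : ℝ)) ≤ q := by
      exact_mod_cast Nat.sqrt_le q
    have hfb : |((k : ℤ) * A + (-r) * q : ℤ)| ≤ (Nat.sqrt q : ℤ) := by
      have h4 : |((k : ℝ) * A - r * q)| ≤ q / ((Nat.sqrt q : ℝ) + 1) := by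
        have e : (k : ℝ) * A - r * q = ((k : ℝ) * ((A : ℝ) / q) - r) * q := by
          field_simp
        rw [e, abs_mul, abs_of_pos hq0]
        calc _ ≤ 1 / ((Nat.sqrt q : ℝ) + 1) * q := mul_le_mul_of_nonneg_right hk2 hq0.le
          _ = _ := by ring
      have h5 : (q : ℝ) / ((Nat.sqrt q : ℝ) + 1) < (Nat.sqrt q : ℝ) + 1 := by
        rw [div_lt_iff₀ (by positivity)]; exact hs1
      have h6 : ((|((k : ℤ) * A + (-r) * q : ℤ)| : ℤ) : ℝ) < ((Nat.sqrt q : ℤ) + 1 : ℤ) := by
        push_cast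
        have : (k : ℝ) * A + -(r : ℝ) * q = (k : ℝ) * A - r * q := by ring
        rw [this]
        exact h4.trans_lt h5
      have := Int.cast_lt.1 h6
      omega
    have hgb : ((k : ℤ)).natAbs ≤ Nat.sqrt q := by simpa using hk1
    have hfb' : ((k : ℤ) * A + (-r) * q : ℤ).natAbs ≤ Nat.sqrt q := by
      rw [Int.abs_eq_natAbs] at hfb
      exact_mod_cast hfb
    have hmle : m ≤ Nat.sqrt q := hle.trans (max_le hfb' hgb)
    have : m * m ≤ q := (Nat.mul_le_mul hmle hmle).trans (Nat.sqrt_le q)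
    exact_mod_cast this
  -- primitivity
  have hprim : IsCoprime g1 h1 := by
    rw [Int.isCoprime_iff_gcd_eq_one]
    by_contra hg
    have hd0 : 0 < Int.gcd g1 h1 := by
      rcases Nat.eq_zero_or_pos (Int.gcd g1 h1) with h | h
      · rw [Int.gcd_eq_zero_iff] at h
        rcases hne with h' | h'
        · exact absurd h.1 h'
        · exact absurd h.2 h'
      · exact h
    obtain ⟨g', hg'⟩ := Int.gcd_dvd_left (a := g1) (b := h1)
    obtain ⟨h', hh'⟩ := Int.gcd_dvd_right (a := g1) (b := h1)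
    set d := Int.gcd g1 h1 with hd
    have hd2 : 2 ≤ d := by omega
    have hne' : g' ≠ 0 ∨ h' ≠ 0 := by
      rcases hne with h | h
      · left; rintro rfl; exact h (by rw [hg']; simp)
      · right; rintro rfl; exact h (by rw [hh']; simp)
    have hle := hmin g' h' hne'
    have e1 : (g1 * A + h1 * q).natAbs = d * (g' * A + h' * q).natAbs := by
      have : g1 * A + h1 * q = d * (g' * A + h' * q) := by rw [hg', hh']; ring
      rw [this, Int.natAbs_mul, Int.natAbs_natCast]
    have e2 : g1.natAbs = d * g'.natAbs := by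
      conv_lhs => rw [hg']
      rw [Int.natAbs_mul, Int.natAbs_natCast]
    have e3 : m = d * max (g' * A + h' * q).natAbs g'.natAbs := by
      have hm1' : m = max (g1 * A + h1 * q).natAbs g1.natAbs := hm1
      rw [e1, e2] at hm1'
      rw [hm1', Nat.mul_max_mul_left]
    have : 2 * m ≤ d * m := Nat.mul_le_mul_right _ hd2
    have h7 : d * m ≤ m := by
      calc d * m ≤ d * max (g' * A + h' * q).natAbs g'.natAbs := Nat.mul_le_mul_left _ hle
        _ = m := e3.symm
    omega
  obtain ⟨u, v, huv⟩ := hprim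
  -- u g1 + v h1 = 1; take g2 = -v, h2 = u
  set f1 := g1 * A + h1 * q with hf1
  have hf1m : |f1| ≤ m := by
    have : f1.natAbs ≤ m := by
      have := le_max_left f1.natAbs g1.natAbs
      have hm1' : m = max f1.natAbs g1.natAbs := hm1
      omega
    rw [Int.abs_eq_natAbs]
    exact_mod_cast this
  have hg1m : |g1| ≤ m := by
    have : g1.natAbs ≤ m := by
      have := le_max_right f1.natAbs g1.natAbs
      have hm1' : m = max f1.natAbs g1.natAbs := hm1
      omega
    rw [Int.abs_eq_natAbs]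
    exact_mod_cast this
  have hor : |g1| = m ∨ |f1| = m := by
    have hm1' : m = max f1.natAbs g1.natAbs := hm1
    rcases max_choice f1.natAbs g1.natAbs with h | h
    · right; rw [h] at hm1'; rw [Int.abs_eq_natAbs]; exact_mod_cast hm1'.symm
    · left; rw [h] at hm1'; rw [Int.abs_eq_natAbs]; exact_mod_cast hm1'.symm
  refine ⟨m, hm0, ⟨f1, g1, ?_, ⟨-h1, by rw [hf1]; ring⟩, hf1m, hg1m⟩, ?_⟩
  · by_contra hcon
    push Not at hcon
    have hm' : (0 : ℤ) < m := by exact_mod_cast hm0
    rcases hor with h | h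
    · rw [hcon.1] at h; simp at h; omega
    · rw [hcon.2] at h; simp at h; omega
  have hm' : (0 : ℤ) < m := by exact_mod_cast hm0
  -- reduced second vector
  obtain ⟨g2, h2, hdet, hf2, hg2⟩ : ∃ g2 h2 : ℤ, g1 * h2 - g2 * h1 = 1 ∧
      |g2 * A + h2 * q| * m ≤ 2 * q ∧ |g2| * m ≤ 2 * q := by
    rcases hor with h | h
    · -- reduce the second coordinate
      have hg10 : g1 ≠ 0 := by intro h0; rw [h0] at h; simp at h; omega
      refine ⟨(-v) % g1, u - h1 * ((-v) / g1), ?_, ?_, ?_⟩
      · have := Int.emod_add_mul_ediv (-v) g1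
        have e : (-v) % g1 = -v - g1 * ((-v) / g1) := by linarith
        rw [e]; linarith [huv]
      · set g2 := (-v) % g1 with hg2
        set h2 := u - h1 * ((-v) / g1) with hh2
        have hd : g1 * h2 - g2 * h1 = 1 := by
          have := Int.emod_add_mul_ediv (-v) g1
          have e : (-v) % g1 = -v - g1 * ((-v) / g1) := by linarith
          rw [hg2, hh2, e]; linarith [huv]
        have hg2m : |g2| ≤ m := by
          rw [hg2, abs_of_nonneg (Int.emod_nonneg _ hg10), ← h]
          exact (Int.emod_lt_abs _ hg10).le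
        have key : (g2 * A + h2 * q) * g1 = f1 * g2 + q := by
          rw [hf1]
          have : (g2 * A + h2 * q) * g1 = g2 * A * g1 + (g1 * h2) * q := by ring
          rw [this]
          have : g1 * h2 = 1 + g2 * h1 := by linarith
          rw [this]; ring
        calc |g2 * A + h2 * q| * m = |(g2 * A + h2 * q) * g1| := by rw [abs_mul, h]
          _ = |f1 * g2 + q| := by rw [key]
          _ ≤ |f1 * g2| + |(q : ℤ)| := abs_add_le _ _
          _ = |f1| * |g2| + q := by rw [abs_mul, abs_of_pos hq']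
          _ ≤ m * m + q := by
              have := mul_le_mul hf1m hg2m (abs_nonneg _) hm'.le
              linarith
          _ ≤ 2 * q := by linarith
      · have hg2m : |(-v) % g1| ≤ m := by
          rw [abs_of_nonneg (Int.emod_nonneg _ hg10), ← h]
          exact (Int.emod_lt_abs _ hg10).le
        have := mul_le_mul_of_nonneg_right hg2m hm'.le
        linarith
    · -- reduce the first coordinate
      have hf10 : f1 ≠ 0 := by intro h0; rw [h0] at h; simp at h; omega
      set F := (-v) * A + u * q with hF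
      refine ⟨-v - (F / f1) * g1, u - (F / f1) * h1, ?_, ?_, ?_⟩
      · linarith [huv]
      · have e : (-v - (F / f1) * g1) * A + (u - (F / f1) * h1) * q = F % f1 := by
          have := Int.emod_add_mul_ediv F f1
          have e1 : F % f1 = F - f1 * (F / f1) := by linarith
          rw [e1]
          nth_rewrite 4 [hf1]
          rw [hF]; ring
        rw [e]
        have hg2m : |F % f1| ≤ m := by
          rw [abs_of_nonneg (Int.emod_nonneg _ hf10), ← h]
          exact (Int.emod_lt_abs _ hf10).le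
        have := mul_le_mul_of_nonneg_right hg2m hm'.le
        linarith
      · have e : (-v - (F / f1) * g1) * A + (u - (F / f1) * h1) * q = F % f1 := by
          have := Int.emod_add_mul_ediv F f1
          have e1 : F % f1 = F - f1 * (F / f1) := by linarith
          rw [e1]
          nth_rewrite 4 [hf1]
          rw [hF]; ring
        have hg2m : |F % f1| ≤ m := by
          rw [abs_of_nonneg (Int.emod_nonneg _ hf10), ← h]
          exact (Int.emod_lt_abs _ hf10).le
        set g2 := -v - (F / f1) * g1 with hg2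
        set h2 := u - (F / f1) * h1 with hh2
        have hd : g1 * h2 - g2 * h1 = 1 := by rw [hg2, hh2]; linarith [huv]
        have key : g2 * f1 = (F % f1) * g1 - q := by
          rw [← e, hf1]
          have : (g2 * A + h2 * q) * g1 = g2 * A * g1 + (g1 * h2) * q := by ring
          rw [this]
          have : g1 * h2 = 1 + g2 * h1 := by linarith
          rw [this]; ring
        calc |g2| * m = |g2 * f1| := by rw [abs_mul, h]
          _ = |(F % f1) * g1 - q| := by rw [key]
          _ ≤ |(F % f1) * g1| + |(q : ℤ)| := abs_sub _ _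
          _ = |F % f1| * |g1| + q := by rw [abs_mul, abs_of_pos hq']
          _ ≤ m * m + q := by
              have := mul_le_mul hg2m hg1m (abs_nonneg _) hm'.le
              linarith
          _ ≤ 2 * q := by linarith
  have hcop : IsCoprime g2 g1 := ⟨-h1, h2, by linarith⟩
  obtain ⟨s, hsN, hs⟩ := exists_shift g2 g1 hcop N hN
  refine ⟨(g2 + s * g1) * A + (h2 + s * h1) * q, g2 + s * g1, ⟨-(h2 + s * h1), by ring⟩, hs, ?_, ?_⟩
  · have e : (g2 + s * g1) * A + (h2 + s * h1) * q = (g2 * A + h2 * q) + s * f1 := by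
      rw [hf1]; ring
    rw [e]
    have hsN' : (s : ℤ) ≤ N := by exact_mod_cast hsN
    have hs0 : (0 : ℤ) ≤ s := by positivity
    calc |g2 * A + h2 * q + s * f1| * m ≤ (|g2 * A + h2 * q| + |s * f1|) * m :=
          mul_le_mul_of_nonneg_right (abs_add_le _ _) hm'.le
      _ = |g2 * A + h2 * q| * m + s * (|f1| * m) := by rw [abs_mul, abs_of_nonneg hs0]; ring
      _ ≤ 2 * q + N * (m * m) := by
          have h3 : |f1| * m ≤ m * m := mul_le_mul_of_nonneg_right hf1m hm'.le
          have h4 : (s : ℤ) * (|f1| * m) ≤ N * (m * m) :=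
            mul_le_mul hsN' h3 (by positivity) (by positivity)
          linarith
      _ ≤ 2 * q + N * q := by
          have := mul_le_mul_of_nonneg_left hmsq (show (0 : ℤ) ≤ N by positivity)
          linarith
      _ = (N + 2) * q := by ring
  · have hsN' : (s : ℤ) ≤ N := by exact_mod_cast hsN
    have hs0 : (0 : ℤ) ≤ s := by positivity
    calc |g2 + s * g1| * m ≤ (|g2| + |s * g1|) * m :=
          mul_le_mul_of_nonneg_right (abs_add_le _ _) hm'.le
      _ = |g2| * m + s * (|g1| * m) := by rw [abs_mul, abs_of_nonneg hs0]; ring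
      _ ≤ 2 * q + N * (m * m) := by
          have h3 : |g1| * m ≤ m * m := mul_le_mul_of_nonneg_right hg1m hm'.le
          have h4 : (s : ℤ) * (|g1| * m) ≤ N * (m * m) :=
            mul_le_mul hsN' h3 (by positivity) (by positivity)
          linarith
      _ ≤ 2 * q + N * q := by
          have := mul_le_mul_of_nonneg_left hmsq (show (0 : ℤ) ≤ N by positivity)
          linarith
      _ = (N + 2) * q := by ring


/-- The integer `∑_{i < k} b_i N ^ i`: the residue modulo `N ^ k` of the `N`-adic integer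
`∑ b_i N ^ i` attached to the infinite `N`-ary sequence `b`. -/
def trunc (N : ℕ) (b : ℕ → Fin N) (k : ℕ) : ℕ := ∑ i ∈ range k, (b i : ℕ) * N ^ i

/-- The `N`-adic integer `∑ b_i N ^ i` is the rational number `f / g`, written with `g > 0` and
`gcd (f, g) = 1`: this means `g * ∑ b_i N ^ i = f` in the inverse limit of the `ℤ / N ^ k`. -/
def HasValue (N : ℕ) (b : ℕ → Fin N) (f g : ℤ) : Prop :=
  0 < g ∧ Int.gcd f g = 1 ∧ ∀ k : ℕ, (N : ℤ) ^ k ∣ g * (trunc N b k : ℤ) - f

/-- The (finite) `N`-adic complexities `log_N (max (|f|, |g|))` of all the infinite sequences `b`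
with rational value `f / g` that extend the finite sequence `a`. -/
def complexities (N n : ℕ) (a : Fin n → Fin N) : Set ℝ :=
  {x | ∃ b : ℕ → Fin N, (∀ i : Fin n, b i = a i) ∧
    ∃ f g : ℤ, HasValue N b f g ∧ x = Real.logb N (max |(f : ℝ)| |(g : ℝ)|)}

/-- The `N`-adic complexity of a finite sequence: the minimum over all its extensions. -/
noncomputable def finComplexity (N n : ℕ) (a : Fin n → Fin N) : ℝ := sInf (complexities N n a)

/-- The average of the `N`-adic complexity over all `N ^ n` finite sequences of length `n`. -/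
noncomputable def Efin (N n : ℕ) : ℝ :=
  (∑ a : Fin n → Fin N, finComplexity N n a) / (N : ℝ) ^ n

lemma trunc_dvd (N : ℕ) (b : ℕ → Fin N) (k m : ℕ) :
    (N : ℤ) ^ k ∣ (trunc N b (k + m) : ℤ) - trunc N b k := by
  induction m with
  | zero => simp
  | succ m ih =>
    have e : (trunc N b (k + (m + 1)) : ℤ) - trunc N b k =
        ((trunc N b (k + m) : ℤ) - trunc N b k) + (b (k + m) : ℕ) * (N : ℤ) ^ (k + m) := by
      unfold trunc
      rw [← add_assoc, sum_range_succ]
      push_cast
      ring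
    rw [e]
    exact dvd_add ih ((pow_dvd_pow _ (Nat.le_add_right _ _)).mul_left _)

/-- existence of the expansion with a given start -/
lemma exists_extension (N n : ℕ) (hN : 2 ≤ N) (a : Fin n → Fin N) (f g : ℤ)
    (hg : IsCoprime g (N : ℤ))
    (h : (N : ℤ) ^ n ∣ g * ((∑ i : Fin n, (a i : ℕ) * N ^ (i : ℕ) : ℕ) : ℤ) - f) :
    ∃ b : ℕ → Fin N, (∀ i : Fin n, b i = a i) ∧
      ∀ k : ℕ, (N : ℤ) ^ k ∣ g * (trunc N b k : ℤ) - f := by
  obtain ⟨c0, hc0⟩ := h
  obtain ⟨u, v, huv⟩ := hg
  have hN0 : (0 : ℤ) < N := by omega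
  have hdlt : ∀ c : ℤ, ((c * u) % (N : ℤ)).toNat < N := by
    intro c
    have h1 := Int.emod_nonneg (c * u) hN0.ne'
    have h2 := Int.emod_lt_of_pos (c * u) hN0
    omega
  set d : ℤ → Fin N := fun c => ⟨((c * u) % (N : ℤ)).toNat, hdlt c⟩ with hd
  have hdcast : ∀ c : ℤ, (((d c : Fin N) : ℕ) : ℤ) = (c * u) % (N : ℤ) := by
    intro c
    simp only [hd]
    exact Int.toNat_of_nonneg (Int.emod_nonneg _ hN0.ne')
  have hdiv : ∀ c : ℤ, (N : ℤ) ∣ c - g * ((d c : ℕ) : ℤ) := by
    intro c
    rw [hdcast]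
    have h1 := Int.emod_add_mul_ediv (c * u) N
    have e : (c * u) % (N : ℤ) = c * u - N * (c * u / N) := by linarith
    rw [e]
    refine ⟨c * v + g * (c * u / N), ?_⟩
    linear_combination c * (-huv)
  set next : ℤ → ℤ := fun c => (c - g * ((d c : ℕ) : ℤ)) / N with hnext
  have hnext' : ∀ c : ℤ, (N : ℤ) * next c = c - g * ((d c : ℕ) : ℤ) := by
    intro c
    exact Int.mul_ediv_cancel' (hdiv c)
  set st : ℕ → ℤ := fun j => next^[j] (-c0) with hst
  set b : ℕ → Fin N := fun i => if h : i < n then a ⟨i, h⟩ else d (st (i - n)) with hb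
  have hba : ∀ i : Fin n, b i = a i := by
    intro i
    simp only [hb, i.2, dif_pos]
  have htr : trunc N b n = ∑ i : Fin n, (a i : ℕ) * N ^ (i : ℕ) := by
    unfold trunc
    rw [Finset.sum_range]
    exact sum_congr rfl fun i _ => by rw [hba]
  have key : ∀ j : ℕ, g * (trunc N b (n + j) : ℤ) + (N : ℤ) ^ (n + j) * st j = f := by
    intro j
    induction j with
    | zero =>
      have e0 : st 0 = -c0 := rfl
      rw [add_zero, htr, e0]
      linarith
    | succ j ih =>
      have e1 : st (j + 1) = next (st j) := by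
        simp only [hst]
        rw [Function.iterate_succ_apply']
      have e2 : (trunc N b (n + (j + 1)) : ℤ) =
          trunc N b (n + j) + ((d (st j) : ℕ) : ℤ) * (N : ℤ) ^ (n + j) := by
        unfold trunc
        rw [← add_assoc, sum_range_succ]
        have : b (n + j) = d (st j) := by
          simp only [hb]
          rw [dif_neg (by omega)]
          congr 2
          omega
        rw [this]
        push_cast
        ring
      have e3 := hnext' (st j)
      rw [e1, e2]
      have e4 : (N : ℤ) ^ (n + (j + 1)) * next (st j) = (N : ℤ) ^ (n + j) * (N * next (st j)) := by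
        rw [← add_assoc, pow_succ]; ring
      rw [e4, e3]
      linear_combination ih
  refine ⟨b, hba, fun k => ?_⟩
  rcases le_total n k with hk | hk
  · obtain ⟨j, rfl⟩ := Nat.exists_eq_add_of_le hk
    exact ⟨-st j, by linear_combination key j⟩
  · obtain ⟨m, rfl⟩ := Nat.exists_eq_add_of_le hk
    have h1 := trunc_dvd N b k m
    have h2 : (N : ℤ) ^ k ∣ g * (trunc N b (k + m) : ℤ) - f :=
      (pow_dvd_pow (N : ℤ) (Nat.le_add_right k m)).trans ⟨-st 0, by
        have := key 0
        rw [add_zero] at this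
        linear_combination this⟩
    have e : g * (trunc N b k : ℤ) - f =
        (g * (trunc N b (k + m) : ℤ) - f) - g * ((trunc N b (k + m) : ℤ) - trunc N b k) := by ring
    rw [e]
    exact dvd_sub h2 (h1.mul_left _)

/-- the number attached to a finite sequence -/
def val (N n : ℕ) (a : Fin n → Fin N) : ℕ := ∑ i : Fin n, (a i : ℕ) * N ^ (i : ℕ)

lemma of_mem (N n : ℕ) (a : Fin n → Fin N) (x : ℝ) (hx : x ∈ complexities N n a) :
    ∃ (f g : ℤ) (m : ℕ), 0 < g ∧ (N : ℤ) ^ n ∣ g * (val N n a : ℤ) - f ∧ 1 ≤ m ∧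
      |f| ≤ m ∧ |g| ≤ m ∧ x = Real.logb N m := by
  obtain ⟨b, hb, f, g, ⟨hg, _, hv⟩, rfl⟩ := hx
  refine ⟨f, g, max f.natAbs g.natAbs, hg, ?_, ?_, ?_, ?_, ?_⟩
  · have := hv n
    have e : trunc N b n = val N n a := by
      unfold trunc val
      rw [Finset.sum_range]
      exact sum_congr rfl fun i _ => by rw [hb]
    rwa [e] at this
  · have := le_max_right f.natAbs g.natAbs
    omega
  · rw [Int.abs_eq_natAbs]
    exact_mod_cast le_max_left _ _
  · rw [Int.abs_eq_natAbs]
    exact_mod_cast le_max_right _ _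
  · congr 1
    push_cast
    rw [Nat.cast_natAbs, Nat.cast_natAbs]
    simp

lemma to_mem (N n : ℕ) (hN : 2 ≤ N) (a : Fin n → Fin N) (f g : ℤ) (hg0 : g ≠ 0)
    (hg : IsCoprime g (N : ℤ)) (h : (N : ℤ) ^ n ∣ g * (val N n a : ℤ) - f) :
    ∃ x ∈ complexities N n a, x ≤ Real.logb N (max |(f : ℝ)| |(g : ℝ)|) := by
  -- positive denominator
  wlog hpos : 0 < g generalizing f g
  · have := this (-f) (-g) (by simpa using hg0) hg.neg_left
      (by
        have e : -g * (val N n a : ℤ) - -f = -(g * (val N n a : ℤ) - f) := by ring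
        rw [e]; exact (dvd_neg).2 h) (by omega)
    simpa using this
  -- lowest terms
  have hd0 : 0 < Int.gcd f g := by
    rcases Nat.eq_zero_or_pos (Int.gcd f g) with h | h
    · rw [Int.gcd_eq_zero_iff] at h; exact absurd h.2 hg0
    · exact h
  obtain ⟨f', hf'⟩ := Int.gcd_dvd_left (a := f) (b := g)
  obtain ⟨g', hg'⟩ := Int.gcd_dvd_right (a := f) (b := g)
  have hcop' : Int.gcd f' g' = 1 := by
    have h1 : Int.gcd ((Int.gcd f g : ℤ) * f') ((Int.gcd f g : ℤ) * g') =
        (Int.gcd f g) * Int.gcd f' g' := by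
      rw [Int.gcd_mul_left, Int.natAbs_natCast]
    rw [← hf', ← hg'] at h1
    exact Nat.eq_of_mul_eq_mul_left hd0 (by rw [mul_one]; exact h1.symm)
  set d := Int.gcd f g with hd
  have hd0' : (0 : ℤ) < d := by exact_mod_cast hd0
  have hg'0 : 0 < g' := by
    rw [hg'] at hpos
    exact (mul_pos_iff_of_pos_left hd0').1 hpos
  have hgN : IsCoprime g' (N : ℤ) := by
    rw [hg'] at hg
    exact hg.of_mul_left_right
  have hdN : IsCoprime (d : ℤ) ((N : ℤ) ^ n) := by
    rw [hg'] at hg
    exact (hg.of_mul_left_left).pow_right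
  have h' : (N : ℤ) ^ n ∣ g' * (val N n a : ℤ) - f' := by
    have e : g * (val N n a : ℤ) - f = d * (g' * (val N n a : ℤ) - f') := by
      conv_lhs => rw [hg', hf']
      ring
    rw [e] at h
    exact hdN.symm.dvd_of_dvd_mul_left h
  obtain ⟨b, hb, hv⟩ := exists_extension N n hN a f' g' hgN h'
  refine ⟨Real.logb N (max |(f' : ℝ)| |(g' : ℝ)|), ⟨b, hb, f', g', ⟨hg'0, hcop', hv⟩, rfl⟩, ?_⟩
  have hN1 : (1 : ℝ) < N := by exact_mod_cast (by omega : 1 < N)
  have hpos1 : (0 : ℝ) < max |(f' : ℝ)| |(g' : ℝ)| := by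
    refine lt_max_of_lt_right ?_
    rw [abs_pos]; exact_mod_cast hg'0.ne'
  have hd1 : (1 : ℝ) ≤ d := by exact_mod_cast hd0
  have hle : max |(f' : ℝ)| |(g' : ℝ)| ≤ max |(f : ℝ)| |(g : ℝ)| := by
    have ef : |(f : ℝ)| = d * |(f' : ℝ)| := by
      conv_lhs => rw [hf']
      push_cast
      rw [abs_mul, abs_of_nonneg (by positivity)]
    have eg : |(g : ℝ)| = d * |(g' : ℝ)| := by
      conv_lhs => rw [hg']
      push_cast
      rw [abs_mul, abs_of_nonneg (by positivity)]
    refine max_le_max ?_ ?_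
    · rw [ef]; exact le_mul_of_one_le_left (abs_nonneg _) hd1
    · rw [eg]; exact le_mul_of_one_le_left (abs_nonneg _) hd1
  exact Real.logb_le_logb_of_le hN1 hpos1 hle

lemma val_eq (N n : ℕ) (a : Fin n → Fin N) : val N n a = (finFunctionFinEquiv a : ℕ) := by
  rw [finFunctionFinEquiv_apply]
  rfl

lemma val_lt (N n : ℕ) (a : Fin n → Fin N) : val N n a < N ^ n := by
  rw [val_eq]; exact Fin.is_lt _

/-- the minimum is attained -/
lemma isLeast (N n : ℕ) (hN : 2 ≤ N) (a : Fin n → Fin N) :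
    IsLeast (complexities N n a) (finComplexity N n a) := by
  classical
  have hN1 : (1 : ℝ) < N := by exact_mod_cast (by omega : 1 < N)
  have hex : ∃ m : ℕ, 1 ≤ m ∧ Real.logb N m ∈ complexities N n a := by
    obtain ⟨x, hx, _⟩ := to_mem N n hN a (val N n a) 1 one_ne_zero isCoprime_one_left
      (by simp)
    obtain ⟨f, g, m, _, _, hm, _, _, rfl⟩ := of_mem N n a x hx
    exact ⟨m, hm, hx⟩
  have hmem := Nat.find_spec hex
  have hleast : IsLeast (complexities N n a) (Real.logb N (Nat.find hex : ℕ)) := by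
    refine ⟨hmem.2, ?_⟩
    intro x hx
    obtain ⟨f, g, m, _, _, hm, _, _, rfl⟩ := of_mem N n a x hx
    have : Nat.find hex ≤ m := Nat.find_min' hex ⟨hm, hx⟩
    exact Real.logb_le_logb_of_le hN1 (by exact_mod_cast hmem.1) (by exact_mod_cast this)
  unfold finComplexity
  rw [hleast.csInf_eq]
  exact hleast

lemma mem_Bad (q k A M : ℕ) (f g : ℤ) (hA : A < q) (hM : 4 ^ k * M ^ 2 ≤ q) (hg : g ≠ 0)
    (hfM : |f| ≤ M) (hgM : |g| ≤ M) (h : (q : ℤ) ∣ g * (A : ℤ) - f) :
    A ∈ Bad q (Nat.sqrt (q / 4 ^ k)) := by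
  wlog hpos : 0 < g generalizing f g
  · exact this (-f) (-g) (by simpa using hg) (by simpa using hfM) (by simpa using hgM)
      (by
        have e : -g * (A : ℤ) - -f = -(g * (A : ℤ) - f) := by ring
        rw [e]; exact (dvd_neg).2 h) (by omega)
  have hMR : M ≤ Nat.sqrt (q / 4 ^ k) := by
    rw [Nat.le_sqrt']
    rw [Nat.le_div_iff_mul_le (by positivity)]
    rw [mul_comm]; exact hM
  rw [Bad, mem_filter]
  rw [abs_le] at hfM
  rw [abs_of_pos hpos] at hgM
  refine ⟨mem_range.2 hA, g.toNat, ?_, f, ?_, ?_⟩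
  · rw [mem_Icc]; omega
  · rw [mem_Icc]; omega
  · rw [Int.toNat_of_nonneg hpos.le]; exact h

lemma pow_of_logb (N n k m : ℕ) (hN : 2 ≤ N) (hm : 1 ≤ m)
    (h : (k : ℝ) < n / 2 - Real.logb N m) : 4 ^ k * m ^ 2 ≤ N ^ n := by
  have hN1 : (1 : ℝ) < N := by exact_mod_cast (by omega : 1 < N)
  have hm0 : (0 : ℝ) < m := by exact_mod_cast hm
  have h1 : Real.logb N (((N : ℝ) ^ (2 * k)) * (m : ℝ) ^ 2) < Real.logb N ((N : ℝ) ^ n) := by
    rw [Real.logb_mul (by positivity) (by positivity), Real.logb_pow, Real.logb_pow, Real.logb_pow,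
      Real.logb_self_eq_one hN1]
    push_cast
    linarith
  have h2 : ((N : ℝ) ^ (2 * k)) * (m : ℝ) ^ 2 < (N : ℝ) ^ n :=
    (Real.logb_lt_logb_iff hN1 (by positivity) (by positivity)).1 h1
  have h3 : N ^ (2 * k) * m ^ 2 < N ^ n := by exact_mod_cast h2
  have h4 : 4 ^ k ≤ N ^ (2 * k) := by
    rw [pow_mul]
    exact Nat.pow_le_pow_left (by nlinarith) k
  calc 4 ^ k * m ^ 2 ≤ N ^ (2 * k) * m ^ 2 := Nat.mul_le_mul_right _ h4
    _ ≤ N ^ n := h3.le

/-- transfer of sums over words to sums over residues -/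
lemma sum_words (N n : ℕ) (Y : (Fin n → Fin N) → ℝ)
    (h : ∀ k : ℕ, 1 ≤ k → ∀ a : Fin n → Fin N, (k : ℝ) < Y a →
      val N n a ∈ Bad (N ^ n) (Nat.sqrt (N ^ n / 4 ^ k))) (hN : 2 ≤ N) :
    ∑ a : Fin n → Fin N, Y a ≤ 2 * (N : ℝ) ^ n := by
  classical
  have hq : 0 < N ^ n := by positivity
  set X : ℕ → ℝ := fun A => if h : A < N ^ n then Y (finFunctionFinEquiv.symm ⟨A, h⟩) else 0 with hX
  have e : ∑ a : Fin n → Fin N, Y a = ∑ A ∈ range (N ^ n), X A := by
    rw [Finset.sum_range]
    rw [← Equiv.sum_comp finFunctionFinEquiv.symm]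
    refine sum_congr rfl fun A _ => ?_
    simp only [hX, A.2, dif_pos]
  rw [e]
  have := sum_le_of_tail (N ^ n) X ?_
  · simpa using this
  intro k hk
  have hsub : (range (N ^ n)).filter (fun A => (k : ℝ) < X A) ⊆
      Bad (N ^ n) (Nat.sqrt (N ^ n / 4 ^ k)) := by
    intro A hA
    rw [mem_filter, mem_range] at hA
    obtain ⟨hA, hlt⟩ := hA
    simp only [hX, hA, dif_pos] at hlt
    have := h k hk _ hlt
    rw [val_eq, Equiv.apply_symm_apply] at this
    exact this
  have h1 : ((range (N ^ n)).filter (fun A => (k : ℝ) < X A)).card ≤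
      3 * (Nat.sqrt (N ^ n / 4 ^ k)) ^ 2 := (card_le_card hsub).trans (card_Bad _ _ hq)
  have h2 : (Nat.sqrt (N ^ n / 4 ^ k)) ^ 2 ≤ N ^ n / 4 ^ k := Nat.sqrt_le' _
  have h3 : (((N ^ n / 4 ^ k : ℕ)) : ℝ) ≤ (N ^ n : ℕ) / 4 ^ k := by
    have := @Nat.cast_div_le ℝ _ _ _ (N ^ n) (4 ^ k)
    push_cast at this ⊢
    exact this
  calc _ ≤ ((3 * (Nat.sqrt (N ^ n / 4 ^ k)) ^ 2 : ℕ) : ℝ) := by exact_mod_cast h1
    _ ≤ 3 * ((N ^ n / 4 ^ k : ℕ) : ℝ) := by
        push_cast
        have : ((Nat.sqrt (N ^ n / 4 ^ k) ^ 2 : ℕ) : ℝ) ≤ ((N ^ n / 4 ^ k : ℕ) : ℝ) := by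
          exact_mod_cast h2
        push_cast at this
        linarith
    _ ≤ 3 * ((N ^ n : ℕ) / 4 ^ k) := by linarith
    _ = 3 * ((N ^ n : ℕ) : ℝ) / 4 ^ k := by ring

/-- `E_n^fin = n / 2 + O(1)`, with an absolute error bound, uniformly in `N ≥ 2` and `n`; the minimum
in the definition of the complexity of a finite sequence is attained. -/
theorem result (N n : ℕ) (hN : 2 ≤ N) :
    (∀ a : Fin n → Fin N, IsLeast (complexities N n a) (finComplexity N n a)) ∧
      (n : ℝ) / 2 - 2 ≤ Efin N n ∧ Efin N n ≤ (n : ℝ) / 2 + 4 := by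
  have hN1 : (1 : ℝ) < N := by exact_mod_cast (by omega : 1 < N)
  have hq : 0 < N ^ n := by positivity
  have hqR : (0 : ℝ) < (N : ℝ) ^ n := by positivity
  refine ⟨isLeast N n hN, ?_, ?_⟩
  · have h1 := sum_words N n (fun a => (n : ℝ) / 2 - finComplexity N n a) ?_ hN
    · rw [sum_sub_distrib, sum_const, card_univ, Fintype.card_fun, Fintype.card_fin,
        Fintype.card_fin, nsmul_eq_mul] at h1
      push_cast at h1
      rw [Efin, le_div_iff₀ hqR]
      linarith
    · intro k hk a hlt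
      obtain ⟨f, g, m, hg, hdvd, hm, hfm, hgm, hx⟩ := of_mem N n a _ (isLeast N n hN a).1
      rw [hx] at hlt
      exact mem_Bad _ k _ m f g (val_lt N n a) (pow_of_logb N n k m hN hm hlt) hg.ne' hfm hgm
        (by exact_mod_cast hdvd)
  · have h1 := sum_words N n (fun a => finComplexity N n a - ((n : ℝ) / 2 + 2)) ?_ hN
    · rw [sum_sub_distrib, sum_const, card_univ, Fintype.card_fun, Fintype.card_fin,
        Fintype.card_fin, nsmul_eq_mul] at h1
      push_cast at h1
      rw [Efin, div_le_iff₀ hqR]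
      linarith
    · intro k hk a hlt
      obtain ⟨m, hm, ⟨f1, g1, hne, hd1, hf1, hg1⟩, f, g, hd, hcop, hf, hg⟩ :=
        lattice N (N ^ n) (val N n a) (by omega) hq
      have hm0 : (0 : ℝ) < m := by exact_mod_cast hm
      have hg0 : g ≠ 0 := by
        rintro rfl
        have := hcop
        rw [isCoprime_zero_left, Int.isUnit_iff] at this
        omega
      obtain ⟨x, hx, hxle⟩ := to_mem N n hN a f g hg0 hcop (by exact_mod_cast hd)
      have hle : finComplexity N n a ≤ x := (isLeast N n hN a).2 hx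
      have hmax : max |(f : ℝ)| |(g : ℝ)| ≤ (N : ℝ) ^ 2 * (N : ℝ) ^ n / m := by
        have hN2 : (N : ℝ) + 2 ≤ (N : ℝ) ^ 2 := by
          have : (2 : ℝ) ≤ N := by exact_mod_cast hN
          nlinarith
        refine max_le ?_ ?_
        · rw [le_div_iff₀ hm0]
          have h2 : |(f : ℝ)| * m ≤ ((N : ℝ) + 2) * (N : ℝ) ^ n := by exact_mod_cast hf
          exact h2.trans (mul_le_mul_of_nonneg_right hN2 hqR.le)
        · rw [le_div_iff₀ hm0]
          have h2 : |(g : ℝ)| * m ≤ ((N : ℝ) + 2) * (N : ℝ) ^ n := by exact_mod_cast hg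
          exact h2.trans (mul_le_mul_of_nonneg_right hN2 hqR.le)
      have hmaxpos : (0 : ℝ) < max |(f : ℝ)| |(g : ℝ)| := by
        refine lt_max_of_lt_right ?_
        rw [abs_pos]; exact_mod_cast hg0
      have hlog : Real.logb N (max |(f : ℝ)| |(g : ℝ)|) ≤ 2 + n - Real.logb N m := by
        refine (Real.logb_le_logb_of_le hN1 hmaxpos hmax).trans ?_
        rw [Real.logb_div (by positivity) hm0.ne', Real.logb_mul (by positivity) (by positivity),
          Real.logb_pow, Real.logb_pow, Real.logb_self_eq_one hN1]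
        push_cast
        linarith
      have hlt' : (k : ℝ) < (n : ℝ) / 2 - Real.logb N m := by
        linarith
      have hpow := pow_of_logb N n k m hN hm hlt'
      have hg10 : g1 ≠ 0 := by
        rintro rfl
        have hf10 : f1 ≠ 0 := by
          rcases hne with h | h
          · exact absurd rfl h
          · exact h
        rw [zero_mul, zero_sub, dvd_neg] at hd1
        have h3 : ((N ^ n : ℕ) : ℤ) ≤ |f1| :=
          Int.le_of_dvd (abs_pos.2 hf10) ((dvd_abs _ _).2 hd1)
        have h4 : N ^ n ≤ m := by exact_mod_cast h3.trans hf1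
        have h5 : 4 ≤ 4 ^ k := by
          calc 4 = 4 ^ 1 := by norm_num
            _ ≤ 4 ^ k := Nat.pow_le_pow_right (by norm_num) hk
        have h6 : 4 * m ^ 2 ≤ m := by
          calc 4 * m ^ 2 ≤ 4 ^ k * m ^ 2 := Nat.mul_le_mul_right _ h5
            _ ≤ m := hpow.trans h4
        nlinarith
      exact mem_Bad _ k _ m f1 g1 (val_lt N n a) hpow hg10 hf1 hg1 (by exact_mod_cast hd1)

end Pool.Agent.Results.MP_68df70_lc.AverageComplexity
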