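import Pool.Agent.X244.LogSum
import Pool.Agent.X244.Lattice

/-!
# The average `N`-adic complexity of finite sequences

The average `N`-adic complexity `E_n` of the `N`-ary sequences of length `n` is
`n / 2 + O((1 + ω(N)) / log N)`, `ω(N)` being the number of prime divisors of `N`, with explicit
constants. In particular it is `n / 2 + O(1)`, uniformly in `N` and `n`, and it is
`n / 2 + O(1 / log N)` if `N` is a prime power.
-/

set_option autoImplicit false

namespace Pool.Agent.Results.MP_68df70_lc.AverageNadic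

open Pool.Agent.X244

/-- The integer `b_0 + b_1 N + ... + b_{k-1} N^{k-1}`, the residue modulo `N ^ k` of the `N`-adic
integer `∑ b_i N^i` of the sequence `b`. -/
def psum (N : ℕ) (b : ℕ → Fin N) (k : ℕ) : ℕ := ∑ i ∈ Finset.range k, (b i : ℕ) * N ^ i

/-- The `N`-adic integer `α = ∑ b_i N^i` of the sequence `b` is the rational number `f / g` in lowest
terms: `g > 0`, `gcd (f, g) = 1` and `g α = f` in `ℤ_N`, the inverse limit of the rings `ℤ / N^k`,
that is, `g (b_0 + ... + b_{k-1} N^{k-1}) ≡ f` modulo `N^k` for all `k`. -/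
def IsFraction (N : ℕ) (b : ℕ → Fin N) (f g : ℤ) : Prop :=
  0 < g ∧ IsCoprime f g ∧ ∀ k : ℕ, (N : ℤ) ^ k ∣ g * (psum N b k : ℤ) - f

/-- The `N`-adic complexity of the infinite sequence `b`: it is `log_N (max (|f|, |g|))` if the
`N`-adic integer of `b` is the rational number `f / g` in lowest terms (there is at most one such
pair, see `isFraction_unique`), and `∞` if it is irrational (then the infimum is over the empty
set). -/
noncomputable def complexity (N : ℕ) (b : ℕ → Fin N) : EReal :=
  ⨅ (p : ℤ × ℤ) (_ : IsFraction N b p.1 p.2), ((Real.logb N (max |p.1| |p.2| : ℤ) : ℝ) : EReal)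

/-- The `N`-adic complexity of the finite sequence `a = (a_0, ..., a_{n-1})`: the minimum of the
`N`-adic complexities of all infinite sequences `b` with `b_i = a_i` for `i < n`. -/
noncomputable def finComplexity (N n : ℕ) (a : Fin n → Fin N) : EReal :=
  ⨅ (b : ℕ → Fin N) (_ : ∀ i : Fin n, b i = a i), complexity N b

/-- `E_n^fin`: the average of the `N`-adic complexity over all `N ^ n` sequences of length `n`. -/
noncomputable def Efin (N n : ℕ) : EReal :=
  ((((N : ℝ) ^ n)⁻¹ : ℝ) : EReal) * ∑ a : Fin n → Fin N, finComplexity N n a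

/-- A denominator is prime to `N`. -/
theorem coprime_of_isFraction {N : ℕ} {b : ℕ → Fin N} {f g : ℤ} (h : IsFraction N b f g) :
    IsCoprime g (N : ℤ) := by
  obtain ⟨_, h2, h3⟩ := h
  have h4 := h3 1
  rw [pow_one] at h4
  -- a common divisor of `g` and `N` divides `f`
  rw [Int.isCoprime_iff_gcd_eq_one]
  by_contra hd
  obtain ⟨p, hp, hpd⟩ := Nat.exists_prime_and_dvd hd
  have hp1 : (p : ℤ) ∣ g := (Int.natCast_dvd_natCast.2 hpd).trans (Int.gcd_dvd_left ..)
  have hp2 : (p : ℤ) ∣ (N : ℤ) := (Int.natCast_dvd_natCast.2 hpd).trans (Int.gcd_dvd_right ..)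
  have hp3 : (p : ℤ) ∣ f := by
    have h5 := hp2.trans h4
    have h6 : (p : ℤ) ∣ g * (psum N b 1 : ℤ) := hp1.mul_right _
    have := dvd_sub h6 h5
    simpa using this
  have := h2.isUnit_of_dvd' hp3 hp1
  rw [Int.isUnit_iff_natAbs_eq, Int.natAbs_natCast] at this
  exact hp.one_lt.ne' this

/-- The representation in lowest terms is unique. -/
theorem isFraction_unique {N : ℕ} (hN : 2 ≤ N) {b : ℕ → Fin N} {f g f' g' : ℤ}
    (h : IsFraction N b f g) (h' : IsFraction N b f' g') : f = f' ∧ g = g' := by
  have h1 : f * g' = f' * g := by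
    have h2 : ∀ k : ℕ, (N : ℤ) ^ k ∣ f * g' - f' * g := by
      intro k
      have h3 := (h.2.2 k).mul_left g'
      have h4 := (h'.2.2 k).mul_left g
      have h5 := dvd_sub h4 h3
      have e : g * (g' * (psum N b k : ℤ) - f') - g' * (g * (psum N b k : ℤ) - f) =
          f * g' - f' * g := by ring
      rwa [e] at h5
    have h3 : f * g' - f' * g = 0 := by
      refine Int.eq_zero_of_abs_lt_dvd (h2 (f * g' - f' * g).natAbs) ?_
      rw [← Int.natCast_natAbs]
      exact_mod_cast Nat.lt_pow_self (by omega : 1 < N)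
    linarith
  have h2 : g ∣ g' := by
    have : g ∣ f * g' := ⟨f', by rw [h1]; ring⟩
    exact h.2.1.symm.dvd_of_dvd_mul_left this
  have h3 : g' ∣ g := by
    have : g' ∣ f' * g := ⟨f, by rw [← h1]; ring⟩
    exact h'.2.1.symm.dvd_of_dvd_mul_left this
  have h4 : g = g' := Int.dvd_antisymm h.1.le h'.1.le h2 h3
  refine ⟨?_, h4⟩
  rw [h4] at h1
  exact mul_right_cancel₀ h'.1.ne' h1

theorem logb_hgt_eq (N : ℕ) (f g : ℤ) :
    Real.logb N ((max |f| |g| : ℤ) : ℝ) = Real.logb N ((hgt f g : ℕ) : ℝ) := by
  congr 1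
  unfold hgt
  push_cast
  rw [Nat.cast_natAbs, Nat.cast_natAbs]
  push_cast
  rfl

/-- Existence of the expansion of `f / g`. -/
theorem exists_expansion (N : ℕ) (hN : 2 ≤ N) (f g : ℤ) (hg : IsCoprime g (N : ℤ)) :
    ∃ b : ℕ → Fin N, ∀ k : ℕ, (N : ℤ) ^ k ∣ g * (psum N b k : ℤ) - f := by
  obtain ⟨u, v, huv⟩ := hg
  have hN0 : (N : ℤ) ≠ 0 := by omega
  let R : ℕ → ℤ := fun k => Nat.rec f (fun _ r => (r - g * ((u * r) % N)) / N) k
  have hR0 : R 0 = f := rfl
  have hR1 : ∀ k, R (k + 1) = (R k - g * ((u * R k) % N)) / N := fun k => rfl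
  have hdiv : ∀ k, (N : ℤ) ∣ R k - g * ((u * R k) % N) := by
    intro k
    have h1 : (N : ℤ) ∣ u * R k - (u * R k) % N := Int.dvd_self_sub_emod
    have h2 : (N : ℤ) ∣ g * (u * R k - (u * R k) % N) := h1.mul_left g
    have h3 : (N : ℤ) ∣ v * N * R k := ⟨v * R k, by ring⟩
    have e : R k - g * ((u * R k) % N) = g * (u * R k - (u * R k) % N) + v * N * R k := by
      have : R k = (u * g + v * N) * R k := by rw [huv, one_mul]
      linear_combination this
    rw [e]
    exact dvd_add h2 h3
  have hlt : ∀ k, ((u * R k) % N).toNat < N := by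
    intro k
    have h1 := Int.emod_nonneg (u * R k) hN0
    have h2 := Int.emod_lt_of_pos (u * R k) (by omega : (0 : ℤ) < N)
    omega
  let b : ℕ → Fin N := fun k => ⟨((u * R k) % N).toNat, hlt k⟩
  have hb : ∀ k, ((b k : ℕ) : ℤ) = (u * R k) % N := fun k =>
    Int.toNat_of_nonneg (Int.emod_nonneg (u * R k) hN0)
  have hinv : ∀ k, g * (psum N b k : ℤ) = f - (N : ℤ) ^ k * R k := by
    intro k
    induction k with
    | zero => simp [psum, hR0]
    | succ k ih =>
      have h1 : psum N b (k + 1) = psum N b k + (b k : ℕ) * N ^ k := by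
        unfold psum
        rw [Finset.sum_range_succ]
      rw [h1]
      push_cast
      rw [mul_add, ih, hb k, hR1 k]
      have h2 := Int.ediv_mul_cancel (hdiv k)
      rw [pow_succ]
      linear_combination ((N : ℤ) ^ k) * h2
  refine ⟨b, fun k => ⟨-R k, ?_⟩⟩
  rw [hinv k]
  ring

/-- The integer of a finite sequence. -/
def val (N n : ℕ) (a : Fin n → Fin N) : ℕ := ∑ i, (a i : ℕ) * N ^ (i : ℕ)

theorem val_eq (N n : ℕ) (a : Fin n → Fin N) : val N n a = (finFunctionFinEquiv a : ℕ) := by
  rw [finFunctionFinEquiv_apply]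
  rfl

theorem psum_eq_val {N n : ℕ} {b : ℕ → Fin N} {a : Fin n → Fin N} (h : ∀ i : Fin n, b i = a i) :
    psum N b n = val N n a := by
  unfold psum val
  rw [Finset.sum_range]
  refine Finset.sum_congr rfl fun i _ => ?_
  rw [h i]

theorem finComplexity_eq (N n : ℕ) (hN : 2 ≤ N) (a : Fin n → Fin N) :
    finComplexity N n a = ((Real.logb N (adm N (N ^ n) (val N n a)) : ℝ) : EReal) := by
  have hN1 : (1 : ℝ) < N := by exact_mod_cast (by omega : 1 < N)
  apply le_antisymm
  · -- construct an extension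
    obtain ⟨f, g, h1, h2, h3, h4⟩ := adm_spec N (N ^ n) (val N n a)
    have hd0 : (Int.gcd f g : ℤ) ≠ 0 := by
      have : Int.gcd f g ≠ 0 := by
        intro h0
        have := (Int.gcd_eq_zero_iff.1 h0).2
        omega
      exact_mod_cast this
    obtain ⟨f', hf'⟩ : (Int.gcd f g : ℤ) ∣ f := Int.gcd_dvd_left ..
    obtain ⟨g', hg'⟩ : (Int.gcd f g : ℤ) ∣ g := Int.gcd_dvd_right ..
    set d : ℤ := (Int.gcd f g : ℤ) with hd
    have hdpos : 0 < d := lt_of_le_of_ne (by positivity) (Ne.symm hd0)
    have hg'0 : 0 < g' := by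
      by_contra hc
      push Not at hc
      nlinarith
    have hcop : IsCoprime f' g' := by
      obtain ⟨x, y, hxy⟩ := (Int.gcd_dvd_iff (a := f) (b := g) (n := Int.gcd f g)).1 dvd_rfl
      refine ⟨x, y, ?_⟩
      have h5 : d = d * (x * f' + y * g') := by
        have h6 : d = f * x + g * y := hxy
        have h7 : f * x + g * y = d * (x * f' + y * g') := by
          rw [hf', hg']; ring
        rw [← h7]; exact h6
      have h8 : d * 1 = d * (x * f' + y * g') := by rw [mul_one]; exact h5
      exact (mul_left_cancel₀ hd0 h8).symm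
    have hdN : IsCoprime d (N : ℤ) := by
      rw [hg'] at h2
      exact IsCoprime.of_mul_left_left h2
    have hgN : IsCoprime g' (N : ℤ) := by
      rw [hg'] at h2
      exact IsCoprime.of_mul_left_right h2
    have h5 : ((N : ℤ) ^ n) ∣ g' * (val N n a : ℤ) - f' := by
      have h6 : ((N : ℤ) ^ n) ∣ d * (g' * (val N n a : ℤ) - f') := by
        push_cast at h3
        have e : d * (g' * (val N n a : ℤ) - f') = g * (val N n a : ℤ) - f := by
          rw [hf', hg']; ring
        rw [e]
        exact h3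
      exact (hdN.symm.pow_left).dvd_of_dvd_mul_left h6
    obtain ⟨b, hb⟩ := exists_expansion N hN f' g' hgN
    have hps : psum N b n = val N n (fun i => b i) := psum_eq_val (fun _ => rfl)
    have hval : val N n (fun i => b i) = val N n a := by
      have h6 : ((N : ℤ) ^ n) ∣ g' * ((psum N b n : ℤ) - (val N n a : ℤ)) := by
        have := dvd_sub (hb n) h5
        have e : g' * (psum N b n : ℤ) - f' - (g' * (val N n a : ℤ) - f') =
            g' * ((psum N b n : ℤ) - (val N n a : ℤ)) := by ring
        rwa [e] at this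
      have h7 : ((N : ℤ) ^ n) ∣ (psum N b n : ℤ) - (val N n a : ℤ) :=
        (hgN.symm.pow_left).dvd_of_dvd_mul_left h6
      rw [hps] at h7
      have h8 : val N n (fun i => b i) < N ^ n := by
        rw [val_eq]; exact (finFunctionFinEquiv _).2
      have h9 : val N n a < N ^ n := by
        rw [val_eq]; exact (finFunctionFinEquiv _).2
      have h10 : |((val N n (fun i => b i) : ℕ) : ℤ) - (val N n a : ℤ)| < (N : ℤ) ^ n := by
        have h8' : ((val N n (fun i => b i) : ℕ) : ℤ) < (N : ℤ) ^ n := by exact_mod_cast h8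
        have h9' : ((val N n a : ℕ) : ℤ) < (N : ℤ) ^ n := by exact_mod_cast h9
        rw [abs_lt]
        constructor <;> linarith [Int.natCast_nonneg (val N n a),
          Int.natCast_nonneg (val N n (fun i => b i))]
      have := Int.eq_zero_of_abs_lt_dvd h7 h10
      omega
    have hab : ∀ i : Fin n, b i = a i := by
      have h6 : (fun i : Fin n => b i) = a := by
        rw [val_eq, val_eq] at hval
        exact finFunctionFinEquiv.injective (Fin.ext hval)
      intro i
      exact congrFun h6 i
    refine (iInf₂_le b hab).trans ?_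
    unfold complexity
    refine (iInf₂_le (f', g') ⟨hg'0, hcop, hb⟩).trans ?_
    rw [EReal.coe_le_coe_iff, logb_hgt_eq]
    have h6 : hgt f' g' ≤ adm N (N ^ n) (val N n a) := by
      refine le_trans ?_ h4
      unfold hgt
      have e1 : f'.natAbs ≤ f.natAbs := by
        rw [hf', Int.natAbs_mul]
        exact Nat.le_mul_of_pos_left _ (Int.natAbs_pos.2 hd0)
      have e2 : g'.natAbs ≤ g.natAbs := by
        rw [hg', Int.natAbs_mul]
        exact Nat.le_mul_of_pos_left _ (Int.natAbs_pos.2 hd0)
      exact max_le_max e1 e2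
    have h7 : 1 ≤ hgt f' g' := hgt_pos (by omega)
    exact Real.logb_le_logb_of_le hN1 (by exact_mod_cast h7) (by exact_mod_cast h6)
  · unfold finComplexity complexity
    refine le_iInf₂ fun b hb => le_iInf₂ fun p hp => ?_
    rw [EReal.coe_le_coe_iff, logb_hgt_eq]
    have h1 : adm N (N ^ n) (val N n a) ≤ hgt p.1 p.2 := by
      refine adm_le ⟨p.1, p.2, hp.1, coprime_of_isFraction hp, ?_, le_rfl⟩
      have := hp.2.2 n
      rw [psum_eq_val hb] at this
      push_cast
      exact this
    exact Real.logb_le_logb_of_le hN1 (by exact_mod_cast adm_pos N (N ^ n) _)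
      (by exact_mod_cast h1)

/-- The average as a real number. -/
theorem Efin_eq (N n : ℕ) (hN : 2 ≤ N) : Efin N n =
    ((((N : ℝ) ^ n)⁻¹ * ∑ A ∈ Finset.range (N ^ n), Real.logb N (adm N (N ^ n) A) : ℝ) :
      EReal) := by
  unfold Efin
  rw [EReal.coe_mul]
  congr 1
  have h1 : ∀ s : Finset (Fin n → Fin N), ∑ a ∈ s, finComplexity N n a =
      ((∑ a ∈ s, Real.logb N (adm N (N ^ n) (val N n a)) : ℝ) : EReal) := by
    classical
    intro s
    induction s using Finset.induction_on with
    | empty => simp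
    | insert a s ha ih =>
      rw [Finset.sum_insert ha, Finset.sum_insert ha, ih, finComplexity_eq N n hN, EReal.coe_add]
  rw [h1]
  congr 1
  have h2 : ∀ a : Fin n → Fin N, Real.logb N (adm N (N ^ n) (val N n a)) =
      (fun A : Fin (N ^ n) => Real.logb N (adm N (N ^ n) ((A : ℕ) : ℤ)))
        (finFunctionFinEquiv a) := by
    intro a
    simp only [val_eq]
  rw [Finset.sum_congr rfl (fun a _ => h2 a),
    Equiv.sum_comp finFunctionFinEquiv
      (fun A : Fin (N ^ n) => Real.logb N (adm N (N ^ n) ((A : ℕ) : ℤ))),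
    Finset.sum_range (fun A : ℕ => Real.logb N (adm N (N ^ n) (A : ℤ)))]

/-- Let `N ≥ 2`, let `ω(N)` be the number of primes dividing `N`, and let `E_n^fin` be the average
`N`-adic complexity of the `N ^ n` finite `N`-ary sequences of length `n`. Then for every `n`
`n / 2 - 2 log_N 2 ≤ E_n^fin ≤ n / 2 + (ω(N) + 3) log_N 2`. Hence
`E_n^fin = n / 2 + O((1 + ω(N)) / log N)`, and `|E_n^fin - n / 2| ≤ 4` for all `N` and `n`. -/
theorem result (N n : ℕ) (hN : 2 ≤ N) :
    (((n : ℝ) / 2 - 2 * Real.logb N 2 : ℝ) : EReal) ≤ Efin N n ∧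
    Efin N n ≤ (((n : ℝ) / 2 + (N.primeFactors.card + 3) * Real.logb N 2 : ℝ) : EReal) ∧
    (((n : ℝ) / 2 - 4 : ℝ) : EReal) ≤ Efin N n ∧ Efin N n ≤ (((n : ℝ) / 2 + 4 : ℝ) : EReal) := by
  have hN1 : (1 : ℝ) < N := by exact_mod_cast (by omega : 1 < N)
  have hlN : 0 < Real.log N := Real.log_pos hN1
  have hl2 : 0 < Real.log 2 := Real.log_pos (by norm_num)
  set m : ℕ := N ^ n with hm
  have hm1 : 1 ≤ m := Nat.one_le_pow _ _ (by omega)
  have hmR : (0 : ℝ) < m := by exact_mod_cast hm1
  have hlm : Real.log m = n * Real.log N := by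
    rw [hm]; push_cast; rw [Real.log_pow]
  have hcopr : ∀ g : ℤ, IsCoprime g (N : ℤ) → IsCoprime g (m : ℤ) := by
    intro g hg
    rw [hm]; push_cast
    exact hg.pow_right
  -- the lower bound
  have hlow := sum_log_ge (Finset.range m) (fun A : ℕ => adm N m A) 3 (by norm_num)
    (by rw [Finset.card_range]; exact hm1) (fun A _ => adm_pos N m A)
    (fun k => by exact_mod_cast card_adm_le N m hcopr k)
  have hup := sum_log_ge (Finset.range m) (fun A : ℕ => short m A) 6 (by norm_num)
    (by rw [Finset.card_range]; exact hm1) (fun A _ => short_pos m A)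
    (fun k => by exact_mod_cast card_short_le m hm1 k)
  rw [Finset.card_range] at hlow hup
  set S : ℝ := ∑ A ∈ Finset.range m, Real.log (adm N m A) with hS
  have hupS : S ≤ m * (1 / 2 * Real.log m + Real.log ((2 : ℝ) ^ N.primeFactors.card + 1) +
      1 / 2 * Real.log (4 * 6)) := by
    have h1 : ∀ A ∈ Finset.range m, Real.log (adm N m A) ≤
        Real.log ((2 : ℝ) ^ N.primeFactors.card + 1) + Real.log m - Real.log (short m A) := by
      intro A _
      have h2 : ((adm N m A : ℕ) : ℝ) * (short m A : ℝ) ≤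
          ((2 : ℝ) ^ N.primeFactors.card + 1) * m := by
        exact_mod_cast adm_mul_short_le N m hN hm1 A
      have h3 : (0 : ℝ) < adm N m A := by exact_mod_cast adm_pos N m A
      have h4 : (0 : ℝ) < short m A := by exact_mod_cast short_pos m A
      have h5 := Real.log_le_log (by positivity) h2
      rw [Real.log_mul h3.ne' h4.ne', Real.log_mul (by positivity) hmR.ne'] at h5
      linarith
    have h2 := Finset.sum_le_sum h1
    rw [Finset.sum_sub_distrib, Finset.sum_const, Finset.card_range, nsmul_eq_mul, ← hS] at h2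
    linarith
  -- the average
  have hE : ((N : ℝ) ^ n)⁻¹ * ∑ A ∈ Finset.range m, Real.logb N (adm N m A) =
      S / (m * Real.log N) := by
    rw [hS, show ((N : ℝ) ^ n) = (m : ℝ) by rw [hm]; push_cast; rfl]
    unfold Real.logb
    rw [← Finset.sum_div]
    field_simp
  have hpos : 0 < m * Real.log N := by positivity
  have hA : (n : ℝ) / 2 - 2 * Real.logb N 2 ≤ S / (m * Real.log N) := by
    rw [le_div_iff₀ hpos]
    have h12 : Real.log (4 * 3) ≤ 4 * Real.log 2 := by
      rw [show (4 : ℝ) * Real.log 2 = Real.log (2 ^ 4) by rw [Real.log_pow]; norm_num]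
      exact Real.log_le_log (by norm_num) (by norm_num)
    have e : ((n : ℝ) / 2 - 2 * Real.logb N 2) * (m * Real.log N) =
        m * (1 / 2 * (n * Real.log N) - 2 * Real.log 2) := by
      unfold Real.logb
      field_simp
    rw [e, ← hlm]
    refine le_trans ?_ hlow
    refine mul_le_mul_of_nonneg_left ?_ hmR.le
    have h12' : 1 / 2 * Real.log (4 * 3) ≤ 2 * Real.log 2 :=
      (mul_le_mul_of_nonneg_left h12 (by norm_num)).trans_eq (by ring)
    exact sub_le_sub_left h12' _
  have hB : S / (m * Real.log N) ≤ (n : ℝ) / 2 + (N.primeFactors.card + 3) * Real.logb N 2 := by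
    rw [div_le_iff₀ hpos]
    have h24 : Real.log ((2 : ℝ) ^ N.primeFactors.card + 1) + 1 / 2 * Real.log (4 * 6) ≤
        (N.primeFactors.card + 3) * Real.log 2 := by
      have hw : 1 ≤ N.primeFactors.card := by
        rw [Nat.one_le_iff_ne_zero, Finset.card_ne_zero, Nat.nonempty_primeFactors]
        omega
      have h1 : (2 : ℝ) ^ N.primeFactors.card + 1 ≤ 3 / 2 * 2 ^ N.primeFactors.card := by
        have : (2 : ℝ) ^ 1 ≤ 2 ^ N.primeFactors.card := pow_le_pow_right₀ (by norm_num) hw
        linarith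
      have h2 : Real.log ((2 : ℝ) ^ N.primeFactors.card + 1) ≤
          Real.log (3 / 2) + N.primeFactors.card * Real.log 2 := by
        refine (Real.log_le_log (by positivity) h1).trans ?_
        rw [Real.log_mul (by norm_num) (by positivity), Real.log_pow]
      have h3 : 2 * Real.log (3 / 2) + Real.log (4 * 6) ≤ 6 * Real.log 2 := by
        rw [show (2 : ℝ) * Real.log (3 / 2) = Real.log ((3 / 2) ^ 2) by rw [Real.log_pow]; norm_num,
          ← Real.log_mul (by norm_num) (by norm_num),
          show (6 : ℝ) * Real.log 2 = Real.log (2 ^ 6) by rw [Real.log_pow]; norm_num]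
        exact Real.log_le_log (by norm_num) (by norm_num)
      linarith
    have e : ((n : ℝ) / 2 + (N.primeFactors.card + 3) * Real.logb N 2) * (m * Real.log N) =
        m * (1 / 2 * (n * Real.log N) + (N.primeFactors.card + 3) * Real.log 2) := by
      unfold Real.logb
      field_simp
    rw [e, ← hlm]
    refine hupS.trans ?_
    refine mul_le_mul_of_nonneg_left ?_ hmR.le
    rw [add_assoc]
    exact add_le_add_right h24 _
  have hlogb : Real.logb N 2 ≤ 1 := by
    rw [Real.logb_le_iff_le_rpow hN1 (by norm_num), Real.rpow_one]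
    exact_mod_cast hN
  have hw : (N.primeFactors.card : ℝ) * Real.logb N 2 ≤ 1 := by
    have h1 : 2 ^ N.primeFactors.card ≤ N := by
      calc 2 ^ N.primeFactors.card = ∏ p ∈ N.primeFactors, 2 := by rw [Finset.prod_const]
        _ ≤ ∏ p ∈ N.primeFactors, p :=
          Finset.prod_le_prod' fun p hp => (Nat.prime_of_mem_primeFactors hp).two_le
        _ ≤ N := Nat.le_of_dvd (by omega) (Nat.prod_primeFactors_dvd N)
    have h2 : (2 : ℝ) ^ N.primeFactors.card ≤ N := by exact_mod_cast h1
    have h3 := Real.log_le_log (by positivity) h2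
    rw [Real.log_pow] at h3
    unfold Real.logb
    rw [← mul_div_assoc, div_le_one hlN]
    exact h3
  have hlb0 : 0 ≤ Real.logb N 2 := Real.logb_nonneg hN1 (by norm_num)
  rw [Efin_eq N n hN, hE]
  simp only [EReal.coe_le_coe_iff]
  refine ⟨hA, hB, ?_, ?_⟩
  · linarith
  · have : ((N.primeFactors.card : ℝ) + 3) * Real.logb N 2 ≤ 4 := by
      have e : ((N.primeFactors.card : ℝ) + 3) * Real.logb N 2 =
        (N.primeFactors.card : ℝ) * Real.logb N 2 + 3 * Real.logb N 2 := by ring
      rw [e]
      linarith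
    linarith

end Pool.Agent.Results.MP_68df70_lc.AverageNadic
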